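import Pool.Agent.Y752.QF.Stm
import Pool.Agent.TH521.GS.Rep
import Pool.Agent.TH928.GS.MV
import Pool.Agent.H510R2.Div

/-!
# QF-PL: polynomials in several variables, mean square
-/

set_option autoImplicit false

namespace Pool.Agent.Y532.QF

open MeasureTheory Set Filter Complex
open Pool.Agent.TH612.GS (mP)
open Pool.Agent.TH521.GS (mor lint_prod lint1)
open Pool.Agent.Y752.QF

noncomputable section

/-- `n ^ (-iy)` -/
def chs (n : ℕ) (y : ℝ) : ℂ := (n : ℂ) ^ (-(I * (y : ℂ)))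

lemma chs_cont {n : ℕ} (hn : 1 ≤ n) : Continuous (chs n) := by
  have hn0 : (n : ℂ) ≠ 0 := by exact_mod_cast (by omega : n ≠ 0)
  unfold chs
  exact Continuous.const_cpow (by fun_prop) (Or.inl hn0)

/-- the mean value theorem -/
lemma ls1 {C1 : ℝ} (hMV : ∀ (T : ℝ) (X : ℕ) (a : ℕ → ℂ), 1 ≤ T → (X : ℝ) ≤ T ^ 2 →
      ∫ u in (0:ℝ)..(2 * T), ‖∑ n ∈ Finset.Icc 1 X, a n * (n : ℂ) ^ (-(I * u))‖ ^ 2 ≤
        C1 * ∑ n ∈ Finset.Icc 1 X, (T + n) * ‖a n‖ ^ 2)
    {H : ℝ} (hH : 1 ≤ H) {X : ℕ} (hX : (X : ℝ) ≤ H ^ 2) (a : ℕ → ℂ) :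
    ∫⁻ y, ENNReal.ofReal (‖∑ n ∈ Finset.Icc 1 X, a n * chs n y‖ ^ 2) ∂(volume.restrict (Icc 0 H)) ≤
      ENNReal.ofReal (C1 * ∑ n ∈ Finset.Icc 1 X, (H + n) * ‖a n‖ ^ 2) := by
  have hH0 : 0 < H := by linarith
  have hc : Continuous fun y : ℝ => ‖∑ n ∈ Finset.Icc 1 X, a n * chs n y‖ ^ 2 := by
    refine Continuous.pow (Continuous.norm ?_) 2
    apply continuous_finsetSum
    intro n hn
    exact (chs_cont (Finset.mem_Icc.1 hn).1).const_mul _
  rw [lint1 hH0.le hc fun y => by positivity]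
  refine ENNReal.ofReal_le_ofReal ?_
  have h1 : ∫ y in (0:ℝ)..H, ‖∑ n ∈ Finset.Icc 1 X, a n * chs n y‖ ^ 2 ≤
      ∫ y in (0:ℝ)..(2 * H), ‖∑ n ∈ Finset.Icc 1 X, a n * chs n y‖ ^ 2 :=
    intervalIntegral.integral_mono_interval le_rfl hH0.le (by linarith)
      (Eventually.of_forall fun _ => by positivity) (hc.intervalIntegrable _ _)
  exact h1.trans (hMV H X a hH hX)

lemma sum_cont {m : ℕ} {κ : Type} (s : Finset κ) (N : κ → Fin m → ℕ) (c : κ → ℂ)
    (h : ∀ q ∈ s, ∀ i, 1 ≤ N q i) :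
    Continuous fun γ : Fin m → ℝ => ‖∑ q ∈ s, c q * ∏ i, chs (N q i) (γ i)‖ ^ 2 := by
  refine Continuous.pow (Continuous.norm ?_) 2
  refine continuous_finsetSum _ fun q hq => continuous_const.mul ?_
  exact continuous_finsetProd _ fun i _ => (chs_cont (h q hq i)).comp (continuous_apply i)

lemma csum {κ : Type} (s : Finset κ) (c : κ → ℂ) : ‖∑ q ∈ s, c q‖ ^ 2 ≤ s.card * ∑ q ∈ s, ‖c q‖ ^ 2 :=
  (pow_le_pow_left₀ (norm_nonneg _) (norm_sum_le _ _) 2).trans sq_sum_le_card_mul_sum_sq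

theorem tls {C1 : ℝ} (hC1 : 0 < C1) (hMV : ∀ (T : ℝ) (X : ℕ) (a : ℕ → ℂ), 1 ≤ T → (X : ℝ) ≤ T ^ 2 →
      ∫ u in (0:ℝ)..(2 * T), ‖∑ n ∈ Finset.Icc 1 X, a n * (n : ℂ) ^ (-(I * u))‖ ^ 2 ≤
        C1 * ∑ n ∈ Finset.Icc 1 X, (T + n) * ‖a n‖ ^ 2)
    {H : ℝ} (hH : 1 ≤ H) : ∀ (m : ℕ) {κ : Type} (s : Finset κ)
    (N : κ → Fin m → ℕ) (c : κ → ℂ) (D : ℕ), (∀ q ∈ s, ∀ i, 1 ≤ N q i ∧ (N q i : ℝ) ≤ H) →
    (∀ q ∈ s, (s.filter fun q' => N q' = N q).card ≤ D) →
    ∫⁻ γ, ENNReal.ofReal (‖∑ q ∈ s, c q * ∏ i, chs (N q i) (γ i)‖ ^ 2) ∂(mP (Fin m) H) ≤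
      ENNReal.ofReal ((2 * C1 * H) ^ m * (D * ∑ q ∈ s, ‖c q‖ ^ 2)) := by
  intro m
  have hH0 : 0 < H := by linarith
  induction m with
  | zero =>
    intro κ s N c D hN hD
    have hcard : s.card ≤ D := by
      rcases s.eq_empty_or_nonempty with h | ⟨q, hq⟩
      · rw [h]; simp
      · refine le_trans (le_of_eq ?_) (hD q hq)
        congr 1
        rw [Finset.filter_true_of_mem]
        intro q' _
        exact Subsingleton.elim _ _
    have h1 : ∀ γ : Fin 0 → ℝ, ENNReal.ofReal (‖∑ q ∈ s, c q * ∏ i, chs (N q i) (γ i)‖ ^ 2) ≤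
        ENNReal.ofReal ((2 * C1 * H) ^ 0 * (D * ∑ q ∈ s, ‖c q‖ ^ 2)) := by
      intro γ
      refine ENNReal.ofReal_le_ofReal ?_
      simp only [Finset.univ_eq_empty, Finset.prod_empty, mul_one, pow_zero, one_mul]
      refine (csum s c).trans ?_
      have : (s.card : ℝ) ≤ D := by exact_mod_cast hcard
      gcongr
    refine (lintegral_mono h1).trans ?_
    rw [lintegral_const]
    simp [mP, Measure.pi_empty_univ]
  | succ m ih =>
    intro κ s N c D hN hD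
    classical
    set X : ℕ := ⌊H⌋₊ with hX
    have hXH : (X : ℝ) ≤ H := Nat.floor_le hH0.le
    have hXH2 : (X : ℝ) ≤ H ^ 2 := hXH.trans (by nlinarith)
    set A : ℕ → (Fin m → ℝ) → ℂ := fun n γ => ∑ q ∈ s.filter (fun q => N q 0 = n), c q *
      ∏ i : Fin m, chs (N q i.succ) (γ i) with hA
    have hc := sum_cont s N c fun q hq i => (hN q hq i).1
    rw [lint_prod H _ (mor hc)]
    have hcc : Continuous fun p : ℝ × (Fin m → ℝ) => (Fin.cons p.1 p.2 : Fin (m + 1) → ℝ) :=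
      Continuous.finCons (A := fun _ => ℝ) continuous_fst continuous_snd
    have hcomp : Continuous fun p : ℝ × (Fin m → ℝ) => ‖∑ q ∈ s, c q *
        ∏ i, chs (N q i) ((Fin.cons p.1 p.2 : Fin (m + 1) → ℝ) i)‖ ^ 2 := hc.comp hcc
    rw [lintegral_prod_symm _ (mor hcomp).aemeasurable]
    have hcA : ∀ n, Continuous fun γ : Fin m → ℝ => ‖A n γ‖ ^ 2 := fun n =>
      sum_cont (s.filter fun q => N q 0 = n) (fun q i => N q i.succ) c
        fun q hq i => (hN q (Finset.mem_filter.1 hq).1 i.succ).1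
    have e1 : ∀ γ : Fin m → ℝ, ∫⁻ y, ENNReal.ofReal (‖∑ q ∈ s, c q *
        ∏ i, chs (N q i) ((Fin.cons y γ : Fin (m + 1) → ℝ) i)‖ ^ 2)
          ∂(volume.restrict (Icc 0 H)) ≤
        ENNReal.ofReal (2 * C1 * H) * ∑ n ∈ Finset.Icc 1 X, ENNReal.ofReal (‖A n γ‖ ^ 2) := by
      intro γ
      have e2 : ∀ y : ℝ, ∑ q ∈ s, c q * ∏ i, chs (N q i) ((Fin.cons y γ : Fin (m + 1) → ℝ) i) =
          ∑ n ∈ Finset.Icc 1 X, A n γ * chs n y := by
        intro y
        have hmaps : ∀ q ∈ s, N q 0 ∈ Finset.Icc 1 X := fun q hq => by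
          rw [Finset.mem_Icc]
          exact ⟨(hN q hq 0).1, Nat.le_floor (hN q hq 0).2⟩
        rw [← Finset.sum_fiberwise_of_maps_to hmaps]
        refine Finset.sum_congr rfl fun n _ => ?_
        rw [hA]
        simp only
        rw [Finset.sum_mul]
        refine Finset.sum_congr rfl fun q hq => ?_
        rw [Fin.prod_univ_succ]
        simp only [Fin.cons_zero, Fin.cons_succ]
        rw [(Finset.mem_filter.1 hq).2]
        ring
      simp only [e2]
      refine (ls1 hMV hH hXH2 (fun n => A n γ)).trans ?_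
      rw [← ENNReal.ofReal_sum_of_nonneg fun n _ => by positivity, ← ENNReal.ofReal_mul (by positivity)]
      refine ENNReal.ofReal_le_ofReal ?_
      rw [Finset.mul_sum, Finset.mul_sum]
      refine Finset.sum_le_sum fun n hn => ?_
      have hnX : (n : ℝ) ≤ X := by exact_mod_cast (Finset.mem_Icc.1 hn).2
      calc C1 * ((H + n) * ‖A n γ‖ ^ 2) ≤ C1 * ((2 * H) * ‖A n γ‖ ^ 2) := by
            gcongr
            linarith
        _ = _ := by ring
    refine (lintegral_mono e1).trans ?_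
    rw [lintegral_const_mul' _ _ ENNReal.ofReal_ne_top, lintegral_finsetSum _ fun n _ => mor (hcA n)]
    have e3 : ∀ n ∈ Finset.Icc 1 X, ∫⁻ γ, ENNReal.ofReal (‖A n γ‖ ^ 2) ∂(mP (Fin m) H) ≤
        ENNReal.ofReal ((2 * C1 * H) ^ m * (D * ∑ q ∈ s.filter (fun q => N q 0 = n), ‖c q‖ ^ 2)) := by
      intro n _
      refine ih (s.filter fun q => N q 0 = n) (fun q i => N q i.succ) c D ?_ ?_
      · intro q hq i
        exact hN q (Finset.mem_filter.1 hq).1 i.succ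
      · intro q hq
        refine le_trans (Finset.card_le_card ?_) (hD q (Finset.mem_filter.1 hq).1)
        intro q' hq'
        rw [Finset.mem_filter, Finset.mem_filter] at hq'
        rw [Finset.mem_filter]
        refine ⟨hq'.1.1, funext fun i => ?_⟩
        refine Fin.cases ?_ (fun j => ?_) i
        · rw [hq'.1.2, (Finset.mem_filter.1 hq).2]
        · exact congrFun hq'.2 j
    refine (mul_le_mul' le_rfl (Finset.sum_le_sum e3)).trans ?_
    rw [← ENNReal.ofReal_sum_of_nonneg fun n _ => by positivity, ← ENNReal.ofReal_mul (by positivity)]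
    refine ENNReal.ofReal_le_ofReal ?_
    have hmaps : ∀ q ∈ s, N q 0 ∈ Finset.Icc 1 X := fun q hq => by
      rw [Finset.mem_Icc]
      exact ⟨(hN q hq 0).1, Nat.le_floor (hN q hq 0).2⟩
    rw [← Finset.mul_sum, ← Finset.mul_sum, Finset.sum_fiberwise_of_maps_to hmaps]
    refine le_of_eq ?_
    ring

lemma cv_mul (p : DC) (m n : ℕ) : cv p (m * n) = cv p m * cv p n := by
  unfold cv
  rw [Nat.cast_mul, map_mul]

lemma cv_one (p : DC) : cv p 1 = 1 := by
  unfold cv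
  rw [Nat.cast_one, map_one]

lemma cv_prod {k : ℕ} (p : DC) (n : Fin k → ℕ) : cv p (∏ j, n j) = ∏ j, cv p (n j) := by
  induction k with
  | zero => simp [cv_one]
  | succ k ih => rw [Fin.prod_univ_succ, Fin.prod_univ_succ, cv_mul, ih]

/-- the difference as a polynomial -/
lemma diff_eq (b : Bool) (X Y : ℕ) {k : ℕ} (γ : Fin k → ℝ) :
    ∑ p ∈ QFs b X, ∏ j, PY Y p (γ j) - (3 / Real.pi ^ 2 * X : ℝ) * DS Y γ =
      ∑ n ∈ Fintype.piFinset (fun _ : Fin k => Finset.Icc 1 Y),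
        (Ee b X (∏ j, n j) * ∏ j, (n j : ℂ) ^ (-(1 / 2) : ℂ)) * ∏ j, chs (n j) (γ j) := by
  have hpw : ∀ n ∈ Fintype.piFinset (fun _ : Fin k => Finset.Icc 1 Y),
      ∏ j, (n j : ℂ) ^ (-(1 / 2 + I * (γ j : ℂ))) =
        (∏ j, (n j : ℂ) ^ (-(1 / 2) : ℂ)) * ∏ j, chs (n j) (γ j) := by
    intro n hn
    rw [← Finset.prod_mul_distrib]
    refine Finset.prod_congr rfl fun j _ => ?_
    have hj := (Finset.mem_Icc.1 (Fintype.mem_piFinset.1 hn j)).1
    have hj0 : (n j : ℂ) ≠ 0 := by exact_mod_cast (by omega : n j ≠ 0)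
    unfold chs
    rw [neg_add, Complex.cpow_add _ _ hj0]
  have h1 : ∀ p ∈ QFs b X, ∏ j, PY Y p (γ j) =
      ∑ n ∈ Fintype.piFinset (fun _ : Fin k => Finset.Icc 1 Y),
        cv p (∏ j, n j) * ∏ j, (n j : ℂ) ^ (-(1 / 2 + I * (γ j : ℂ))) := by
    intro p _
    unfold PY
    rw [Finset.prod_univ_sum]
    refine Finset.sum_congr rfl fun n _ => ?_
    rw [Finset.prod_mul_distrib, cv_prod]
  rw [Finset.sum_congr rfl h1, Finset.sum_comm]
  unfold DS
  rw [Finset.mul_sum, ← Finset.sum_sub_distrib]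
  refine Finset.sum_congr rfl fun n hn => ?_
  rw [← Finset.sum_mul, ← mul_assoc, ← sub_mul, mul_assoc (Ee b X _), ← hpw n hn]
  congr 1
  unfold Ee mm
  push_cast
  ring

theorem PL (h : S_ES) : S_PL := by
  intro k A ε hε
  obtain ⟨C1, hC1, hMV⟩ := Pool.Agent.TH928.GS.t_MV
  set A' : ℝ := max A 0 with hA'
  have hA0 : 0 ≤ A' := le_max_right _ _
  obtain ⟨C2, hC2, hES⟩ := h (A' * k)
  set δ : ℝ := ε / (A' * k * k + 1) with hδ
  have hden : 0 < A' * k * k + 1 := by positivity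
  have hδ0 : 0 < δ := div_pos hε hden
  obtain ⟨C3, hC3, hdiv⟩ := Pool.Agent.H510R2.divisor_bound δ hδ0
  refine ⟨(2 * C1) ^ k * (C3 ^ k * C2), by positivity, ?_⟩
  intro b X Y H hX hY hYH hYX
  have hX1 : (1 : ℝ) ≤ X := by exact_mod_cast hX
  have hX0 : (0 : ℝ) < X := by linarith
  have hY1 : (1 : ℝ) ≤ Y := by exact_mod_cast hY
  have hH : 1 ≤ H := hY1.trans hYH
  have hH0 : 0 < H := by linarith
  have hYX' : (Y : ℝ) ≤ (X : ℝ) ^ A' :=
    hYX.trans (Real.rpow_le_rpow_of_exponent_le hX1 (le_max_left _ _))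
  simp_rw [diff_eq]
  refine (tls hC1 hMV hH k (Fintype.piFinset (fun _ : Fin k => Finset.Icc 1 Y))
    (fun n => n) _ 1 ?_ ?_).trans (ENNReal.ofReal_le_ofReal ?_)
  · intro n hn i
    have hj := Finset.mem_Icc.1 (Fintype.mem_piFinset.1 hn i)
    exact ⟨hj.1, le_trans (by exact_mod_cast hj.2) hYH⟩
  · intro n hn
    refine le_trans (Finset.card_le_card (t := {n}) ?_) (by simp)
    intro n' hn'
    rw [Finset.mem_singleton]
    exact (Finset.mem_filter.1 hn').2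
  -- the coefficients
  set s := Fintype.piFinset (fun _ : Fin k => Finset.Icc 1 Y) with hs
  have hcoef : ∀ n ∈ s, ‖Ee b X (∏ j, n j) * ∏ j, (n j : ℂ) ^ (-(1 / 2) : ℂ)‖ ^ 2 =
      ‖Ee b X (∏ j, n j)‖ ^ 2 / ((∏ j, n j : ℕ) : ℝ) := by
    intro n hn
    rw [norm_mul, mul_pow, norm_prod, div_eq_mul_inv (‖Ee b X (∏ j, n j)‖ ^ 2)]
    congr 1
    rw [← Finset.prod_pow, Nat.cast_prod, ← Finset.prod_inv_distrib]
    refine Finset.prod_congr rfl fun j _ => ?_
    have hj := (Finset.mem_Icc.1 (Fintype.mem_piFinset.1 hn j)).1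
    have hj0 : (0 : ℝ) < n j := by exact_mod_cast hj
    rw [Complex.norm_natCast_cpow_of_pos (by omega)]
    have h1 : (-(1 / 2) : ℂ).re = -(1 / 2) := by norm_num
    rw [h1, ← Real.rpow_natCast, ← Real.rpow_mul hj0.le, ← Real.rpow_neg_one]
    congr 1
    norm_num
  rw [Finset.sum_congr rfl hcoef]
  -- fibres of the product
  have hmaps : ∀ n ∈ s, (∏ j, n j) ∈ Finset.Icc 1 (Y ^ k) := by
    intro n hn
    rw [Finset.mem_Icc]
    constructor
    · have h1 : 0 < ∏ j, n j := Finset.prod_pos fun j _ =>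
        Nat.lt_of_lt_of_le Nat.one_pos (Finset.mem_Icc.1 (Fintype.mem_piFinset.1 hn j)).1
      exact h1
    · calc ∏ j, n j ≤ ∏ _j : Fin k, Y := Finset.prod_le_prod' fun j _ =>
          (Finset.mem_Icc.1 (Fintype.mem_piFinset.1 hn j)).2
        _ = Y ^ k := by simp
  have hYk : (((Y ^ k : ℕ)) : ℝ) ≤ (X : ℝ) ^ (A' * k) := by
    push_cast
    rw [Real.rpow_mul hX0.le, Real.rpow_natCast]
    exact pow_le_pow_left₀ (by linarith) hYX' k
  rw [← Finset.sum_fiberwise_of_maps_to hmaps]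
  have hfib : ∀ m ∈ Finset.Icc 1 (Y ^ k), ∑ n ∈ s.filter (fun n => ∏ j, n j = m),
      ‖Ee b X (∏ j, n j)‖ ^ 2 / ((∏ j, n j : ℕ) : ℝ) ≤
        C3 ^ k * (X : ℝ) ^ ε * (‖Ee b X m‖ ^ 2 / m) := by
    intro m hm
    obtain ⟨hm1, hm2⟩ := Finset.mem_Icc.1 hm
    have e1 : ∀ n ∈ s.filter (fun n => ∏ j, n j = m),
        ‖Ee b X (∏ j, n j)‖ ^ 2 / ((∏ j, n j : ℕ) : ℝ) = ‖Ee b X m‖ ^ 2 / m := by
      intro n hn
      rw [(Finset.mem_filter.1 hn).2]
    rw [Finset.sum_congr rfl e1, Finset.sum_const, nsmul_eq_mul]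
    refine mul_le_mul_of_nonneg_right ?_ (by positivity)
    have e2 : (s.filter (fun n => ∏ j, n j = m)).card ≤ m.divisors.card ^ k := by
      have e3 : s.filter (fun n => ∏ j, n j = m) ⊆
          Fintype.piFinset (fun _ : Fin k => m.divisors) := by
        intro n hn
        rw [Fintype.mem_piFinset]
        intro j
        rw [Nat.mem_divisors]
        refine ⟨?_, by omega⟩
        rw [← (Finset.mem_filter.1 hn).2]
        exact Finset.dvd_prod_of_mem n (Finset.mem_univ j)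
      refine (Finset.card_le_card e3).trans ?_
      rw [Fintype.card_piFinset]
      simp
    have hmX : (m : ℝ) ≤ (X : ℝ) ^ (A' * k) := le_trans (by exact_mod_cast hm2) hYk
    calc ((s.filter (fun n => ∏ j, n j = m)).card : ℝ) ≤ (m.divisors.card : ℝ) ^ k := by
          exact_mod_cast e2
      _ ≤ (C3 * (m : ℝ) ^ δ) ^ k := pow_le_pow_left₀ (by positivity) (hdiv m hm1) k
      _ ≤ (C3 * ((X : ℝ) ^ (A' * k)) ^ δ) ^ k := by
          refine pow_le_pow_left₀ (by positivity) (mul_le_mul_of_nonneg_left ?_ hC3.le) k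
          exact Real.rpow_le_rpow (by positivity) hmX hδ0.le
      _ = C3 ^ k * (X : ℝ) ^ (A' * k * δ * k) := by
          rw [mul_pow, ← Real.rpow_mul hX0.le, ← Real.rpow_natCast ((X : ℝ) ^ (A' * k * δ)),
            ← Real.rpow_mul hX0.le]
      _ ≤ C3 ^ k * (X : ℝ) ^ ε := by
          refine mul_le_mul_of_nonneg_left ?_ (by positivity)
          refine Real.rpow_le_rpow_of_exponent_le hX1 ?_
          have e4 : A' * k * δ * k = ε * (A' * k * k / (A' * k * k + 1)) := by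
            rw [hδ]
            field_simp
          rw [e4]
          have e5 : A' * k * k / (A' * k * k + 1) ≤ 1 := by
            rw [div_le_one hden]
            linarith
          nlinarith
  have hsum := Finset.sum_le_sum hfib
  rw [← Finset.mul_sum] at hsum
  have hES' := hES b X (Y ^ k) hX hYk
  calc (2 * C1 * H) ^ k * (((1 : ℕ) : ℝ) * ∑ m ∈ Finset.Icc 1 (Y ^ k),
        ∑ n ∈ s.filter (fun n => ∏ j, n j = m),
          ‖Ee b X (∏ j, n j)‖ ^ 2 / ((∏ j, n j : ℕ) : ℝ))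
      ≤ (2 * C1 * H) ^ k * (((1 : ℕ) : ℝ) * (C3 ^ k * (X : ℝ) ^ ε *
          (C2 * (X : ℝ) ^ (9 / 5 : ℝ)))) := by
        refine mul_le_mul_of_nonneg_left (mul_le_mul_of_nonneg_left ?_ (by positivity))
          (by positivity)
        exact hsum.trans (mul_le_mul_of_nonneg_left hES' (by positivity))
    _ = (2 * C1) ^ k * (C3 ^ k * C2) * (X : ℝ) ^ (9 / 5 + ε) * H ^ k := by
        rw [Real.rpow_add hX0, mul_pow]
        push_cast
        ring

end

end Pool.Agent.Y532.QF
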